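import Pool.Agent.H.MP_aa1cf3_an.C

namespace Pool.Agent.Results.MP_aa1cf3_an.Exists

open MeasureTheory Filter Topology Finset Pool.Agent.H.MP_aa1cf3_an
open scoped ENNReal

/-- Lebesgue measure on the unit square. -/
noncomputable def I2 : Measure (ℝ × ℝ) := volume.restrict (Set.Icc 0 1 ×ˢ Set.Icc 0 1)

noncomputable def D (x : ℝ) : Om := fun i => decide (⌊2 ^ (i + 1) * x⌋₊ % 2 = 1)

lemma D_meas (i : ℕ) : Measurable fun x => D x i :=
  (measurable_of_countable fun k : ℕ => decide (k % 2 = 1)).comp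
    (Nat.measurable_floor.comp (measurable_const.mul measurable_id))

lemma val_D {x : ℝ} (hx : x ∈ Set.Ico (0 : ℝ) 1) (n : ℕ) : val n (D x) = ⌊2 ^ n * x⌋₊ := by
  induction n with
  | zero => simp [H.MP_aa1cf3_an.val, Nat.floor_eq_zero.2 hx.2]
  | succ n ih =>
    have h := Nat.floor_div_natCast (2 ^ (n + 1) * x) 2
    rw [show 2 ^ (n + 1) * x / ((2 : ℕ) : ℝ) = 2 ^ n * x by push_cast; ring] at h
    simp only [H.MP_aa1cf3_an.val, ih, D, decide_eq_true_eq]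
    split_ifs <;> omega

lemma D_cyl (n : ℕ) (b : Om) :
    volume.restrict (Set.Ico (0 : ℝ) 1) (D ⁻¹' Cyl n b) = 2⁻¹ ^ n := by
  have hp : (0 : ℝ) < 2 ^ n := by positivity
  have hv : (val n b : ℝ) + 1 ≤ 2 ^ n := by exact_mod_cast val_lt n b
  rw [Measure.restrict_apply' measurableSet_Ico]
  have : D ⁻¹' Cyl n b ∩ Set.Ico 0 1 = 
      Set.Ico ((val n b : ℝ) / 2 ^ n) (((val n b : ℝ) + 1) / 2 ^ n) := by
    ext x
    simp only [Set.mem_inter_iff, Set.mem_preimage, ← val_eq_iff]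
    constructor
    · rintro ⟨h1, h2⟩
      rw [val_D h2, Nat.floor_eq_iff (mul_nonneg hp.le h2.1)] at h1
      exact ⟨by rw [div_le_iff₀' hp]; exact h1.1, by rw [lt_div_iff₀' hp]; exact h1.2⟩
    · rintro ⟨h1, h2⟩
      have h3 : x ∈ Set.Ico (0 : ℝ) 1 :=
        ⟨le_trans (by positivity) h1, h2.trans_le (by rw [div_le_one hp]; exact hv)⟩
      refine ⟨?_, h3⟩
      rw [val_D h3, Nat.floor_eq_iff (mul_nonneg hp.le h3.1)]
      exact ⟨by rwa [div_le_iff₀' hp] at h1, by rwa [lt_div_iff₀' hp] at h2⟩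
  rw [this, Real.volume_Ico, show ((val n b : ℝ) + 1) / 2 ^ n - val n b / 2 ^ n = 2⁻¹ ^ n by
    rw [inv_pow]; field_simp; ring, ENNReal.ofReal_pow (by norm_num),
    ENNReal.ofReal_inv_of_pos two_pos]
  simp

lemma D_inj : Set.InjOn D (Set.Ico 0 1) := by
  intro x hx y hy h
  refine eq_of_forall_dist_le fun ε hε => ?_
  obtain ⟨n, hn⟩ := pow_unbounded_of_one_lt (1 / ε) (one_lt_two (α := ℝ))
  have hp : (0 : ℝ) < 2 ^ n := by positivity
  have e : ⌊2 ^ n * x⌋₊ = ⌊2 ^ n * y⌋₊ := by rw [← val_D hx, ← val_D hy, h]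
  have a1 := (Nat.floor_eq_iff (mul_nonneg hp.le hx.1)).1 e
  have a2 := (Nat.floor_eq_iff (mul_nonneg hp.le hy.1)).1 rfl
  rw [div_lt_iff₀ hε] at hn
  rw [Real.dist_eq, abs_le]
  constructor <;> nlinarith [a1.1, a1.2, a2.1, a2.2]

noncomputable def Φ (p : ℝ × ℝ) : Om := fun i => if i % 2 = 0 then D p.1 (i / 2) else D p.2 (i / 2)

lemma Φ_meas : Measurable Φ := by
  refine measurable_pi_lambda _ fun i => ?_
  simp only [Φ]
  split_ifs
  · exact (D_meas _).comp measurable_fst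
  · exact (D_meas _).comp measurable_snd

lemma Φ_even (p : ℝ × ℝ) (i : ℕ) : Φ p (2 * i) = D p.1 i := by simp [Φ]

lemma Φ_odd (p : ℝ × ℝ) (i : ℕ) : Φ p (2 * i + 1) = D p.2 i := by
  have : (2 * i + 1) / 2 = i := by omega
  simp [Φ, this]

lemma I2_eq : I2 = (volume.restrict (Set.Ico (0 : ℝ) 1)).prod
    (volume.restrict (Set.Ico (0 : ℝ) 1)) := by
  rw [restrict_Ico_eq_restrict_Icc, Measure.prod_restrict]; rfl

lemma I2_prob : IsProbabilityMeasure I2 := ⟨by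
  rw [I2_eq, ← Set.univ_prod_univ, Measure.prod_prod]; simp⟩

lemma fair : Fair (I2.map Φ) := by
  have := I2_prob
  refine ⟨Measure.isProbabilityMeasure_map Φ_meas.aemeasurable, fun n b => ?_⟩
  rw [Measure.map_apply Φ_meas (Cyl_meas n b)]
  have : Φ ⁻¹' Cyl n b = (D ⁻¹' Cyl ((n + 1) / 2) fun i => b (2 * i)) ×ˢ
      (D ⁻¹' Cyl (n / 2) fun i => b (2 * i + 1)) := by
    ext p
    simp only [Cyl, Set.mem_preimage, Set.mem_ofPred_eq, Set.mem_prod]
    constructor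
    · intro h
      exact ⟨fun i hi => by rw [← Φ_even, h _ (by omega)], fun i hi => by
        rw [← Φ_odd, h _ (by omega)]⟩
    · rintro ⟨h1, h2⟩ i hi
      obtain ⟨j, rfl | rfl⟩ := Nat.even_or_odd' i
      · rw [Φ_even, h1 j (by omega)]
      · rw [Φ_odd, h2 j (by omega)]
  rw [this, I2_eq, Measure.prod_prod, D_cyl, D_cyl, ← pow_add]
  congr 1
  omega

lemma mp : MeasurePreserving Φ I2 (I2.map Φ) := ⟨Φ_meas, rfl⟩

lemma ae_Q : ∀ᵐ p ∂I2, p ∈ Set.Ico (0 : ℝ) 1 ×ˢ Set.Ico (0 : ℝ) 1 := by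
  rw [I2_eq, Measure.prod_restrict]
  exact ae_restrict_mem (measurableSet_Ico.prod measurableSet_Ico)

lemma Φ_inj : Set.InjOn Φ (Set.Ico (0 : ℝ) 1 ×ˢ Set.Ico (0 : ℝ) 1) := by
  intro p hp q hq h
  refine Prod.ext (D_inj hp.1 hq.1 ?_) (D_inj hp.2 hq.2 ?_)
  · ext i; rw [← Φ_even, ← Φ_even, h]
  · ext i; rw [← Φ_odd, ← Φ_odd, h]

lemma zero_of_cyl {f : ℝ × ℝ → ℝ} (hf : Integrable f I2)
    (h : ∀ n b, ∫ x in Φ ⁻¹' Cyl n b, f x ∂I2 = 0) : f =ᵐ[I2] 0 := by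
  have key : ∀ C, MeasurableSet C → ∫ x in Φ ⁻¹' C, f x ∂I2 = 0 := by
    intro C hC
    induction C, hC using MeasurableSpace.induction_on_inter Cyl_gen Cyl_pi with
    | empty => simp
    | basic t ht => obtain ⟨n, b, rfl⟩ := ht; exact h n b
    | compl t htm ht =>
      have h0 := h 0 fun _ => true
      have e : Cyl 0 (fun _ => true) = Set.univ := by simp [Cyl]
      rw [e, Set.preimage_univ, setIntegral_univ] at h0
      rw [Set.preimage_compl, setIntegral_compl (Φ_meas htm) hf, ht, h0, sub_zero]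
    | iUnion g hd hm ih =>
      rw [Set.preimage_iUnion, integral_iUnion (fun i => Φ_meas (hm i))
        (fun i j hij => (hd hij).preimage Φ) hf.integrableOn]
      simp [ih]
  refine hf.ae_eq_zero_of_forall_setIntegral_eq_zero fun s hs _ => ?_
  have hm := (hs.inter (measurableSet_Ico.prod measurableSet_Ico)).image_of_measurable_injOn Φ_meas
    (Φ_inj.mono Set.inter_subset_right)
  rw [← key _ hm]
  refine setIntegral_congr_set ?_
  filter_upwards [ae_Q] with p hp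
  refine propext ⟨fun h => ⟨p, ⟨h, hp⟩, rfl⟩, ?_⟩
  rintro ⟨q, hq, e⟩
  exact Φ_inj hq.2 hp e ▸ hq.1

theorem result : ∃ φ : ℕ → ℕ → ℝ × ℝ → ℝ,
    (∀ i k, MemLp (φ i k) 2 I2) ∧
    (∀ i k j l, ∫ x, φ i k x * φ j l x ∂I2 = if (i, k) = (j, l) then 1 else 0) ∧
    (∃ M : ℝ, ∀ i k x, |φ i k x| ≤ M) ∧
    (∀ f : ℝ × ℝ → ℝ, MemLp f 2 I2 → (∀ i k, ∫ x, f x * φ i k x ∂I2 = 0) → f =ᵐ[I2] 0) ∧
    ∀ a : ℕ → ℕ → ℝ, Summable (fun p : ℕ × ℕ => a p.1 p.2 ^ 2) → ∀ᵐ x ∂I2,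
      (∃ s : ℝ, ∀ ε > 0, ∃ N, ∀ m n, N ≤ m → N ≤ n →
        |∑ i ∈ range m, ∑ k ∈ range n, a i k * φ i k x - s| < ε) ∧
      (∀ i, ∃ s : ℝ, Tendsto (fun n => ∑ k ∈ range n, a i k * φ i k x) atTop (𝓝 s)) ∧
      ∀ k, ∃ s : ℝ, Tendsto (fun m => ∑ i ∈ range m, a i k * φ i k x) atTop (𝓝 s) := by
  have := I2_prob
  have hc : ∀ v : V (I2.map Φ), MemLp (fun x => v.1 (Φ x)) 2 I2 := fun v =>
    MemLp.comp_measurePreserving v.2 mp
  refine ⟨fun i k x => (Phi fair (i, k)).1 (Φ x), fun i k => hc _, fun i k j l => ?_,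
    ⟨3, fun i k x => Phi_abs _ _ _⟩, fun f hf h => ?_, fun a ha => ?_⟩
  · rw [← ON_Phi fair (i, k) (j, l), B_apply, integral_map Φ_meas.aemeasurable]
    exact (MemLp.integrable_mul (Phi fair (i, k)).2 (Phi fair (j, l)).2).1
  · let l : V (I2.map Φ) →ₗ[ℝ] ℝ :=
      { toFun := fun v => ∫ x, f x * v.1 (Φ x) ∂I2
        map_add' := fun v w => by
          simp only [Submodule.coe_add, Pi.add_apply, mul_add]
          exact integral_add (MemLp.integrable_mul hf (hc v)) (MemLp.integrable_mul hf (hc w))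
        map_smul' := fun c v => by
          simp only [Submodule.coe_smul, Pi.smul_apply, smul_eq_mul, mul_left_comm _ c]
          exact integral_const_mul _ _ }
    refine zero_of_cyl (hf.integrable (by norm_num)) fun n b => ?_
    have h1 := Phi_complete fair l (fun p => h p.1 p.2) n b
    rw [← integral_indicator (Φ_meas (Cyl_meas n b)), ← h1]
    refine integral_congr_ae (Eventually.of_forall fun x => ?_)
    by_cases c : Φ x ∈ Cyl n b <;> simp [ind, H.MP_aa1cf3_an.mk, c]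
  · filter_upwards [mp.quasiMeasurePreserving.ae (Phi_conv fair (fun p => a p.1 p.2) ha)]
      with x ⟨⟨s, hs⟩, h2, h3⟩
    refine ⟨⟨s, fun ε hε => ?_⟩, h2, h3⟩
    obtain ⟨N, hN⟩ := Metric.tendsto_atTop.1 hs ε hε
    exact ⟨max N.1 N.2, fun m n hm hn =>
      hN (m, n) ⟨(le_max_left _ _).trans hm, (le_max_right _ _).trans hn⟩⟩

end Pool.Agent.Results.MP_aa1cf3_an.Exists
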